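import Mathlib

/-! Type A difference sequences: the smallest relative term. -/

namespace Pool.Agent.R804.TypeA

open Matrix

/-- the indicator vector of the block `a ≤ t < b` -/
def blk {n : ℕ} (a b : ℕ) : Fin n → ℤ := fun t => if a ≤ (t : ℕ) ∧ (t : ℕ) < b then 1 else 0

/-- coefficient vector of the type A equation `∑_{i ≤ t < j} d_t = ∑_{j ≤ t < k} d_t`
(indices from `0`) -/
def eqn {n : ℕ} (i j k : ℕ) : Fin n → ℤ := blk i j - blk j k

/-- `v` is the coefficient vector of a type A equation in `n` unknowns -/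
def IsEqn {n : ℕ} (v : Fin n → ℤ) : Prop := ∃ i j k : ℕ, i < j ∧ j < k ∧ k ≤ n ∧ v = eqn i j k

/-- type A sequences: positive vectors satisfying `n - 1` linearly independent type A
equations -/
def IsTypeA {n : ℕ} (d : Fin n → ℝ) : Prop :=
  (∀ t, 0 < d t) ∧ ∃ E : Fin (n - 1) → Fin n → ℤ, (∀ r, IsEqn (E r)) ∧
    LinearIndependent ℝ (fun r t => (E r t : ℝ)) ∧ ∀ r, ∑ t, (E r t : ℝ) * d t = 0

/-- type A sequences in smallest-integer format -/
def AA (n : ℕ) : Set (Fin n → ℤ) :=
  {d | IsTypeA (fun t => (d t : ℝ)) ∧ Finset.univ.gcd d = 1}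

def IsInt {n : ℕ} (v : Fin n → ℤ) : Prop := ∃ a b : ℕ, v = blk a b

lemma blk_zero {n : ℕ} (a b : ℕ) :
    (blk a b : Fin (n + 1) → ℤ) 0 = if a = 0 ∧ 0 < b then 1 else 0 := by
  simp [blk]

lemma det_interval : ∀ (n : ℕ) (M : Matrix (Fin n) (Fin n) ℤ), (∀ r, IsInt (M r)) →
    |M.det| ≤ 1 := by
  intro n
  induction n with
  | zero => intro M _; simp
  | succ n ih =>
    intro M hM
    choose a b hab using hM
    by_cases hne : ∃ r, a r = 0 ∧ 0 < b r
    · -- choose the shortest interval starting at 0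
      obtain ⟨r0, hr0, hmin⟩ : ∃ r0, (a r0 = 0 ∧ 0 < b r0) ∧
          ∀ r, (a r = 0 ∧ 0 < b r) → b r0 ≤ b r := by
        classical
        have hne' : (Finset.univ.filter (fun r => a r = 0 ∧ 0 < b r)).Nonempty := by
          obtain ⟨r, hr⟩ := hne
          exact ⟨r, by simpa using hr⟩
        obtain ⟨r0, h1, h2⟩ := Finset.exists_min_image _ b hne'
        exact ⟨r0, by simpa using h1, fun r hr => h2 r (by simpa using hr)⟩
      have h00 : M r0 0 = 1 := by
        rw [hab r0]
        simp [blk, hr0.1, hr0.2]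
      let c : Fin (n + 1) → ℤ := fun r => if r = r0 then 0 else -(M r 0)
      let B : Matrix (Fin (n + 1)) (Fin (n + 1)) ℤ := fun r t => M r t + c r * M r0 t
      have hdet : B.det = M.det :=
        Matrix.det_eq_of_forall_row_eq_smul_add_const c r0 (by simp [c]) (fun i j => rfl)
      have hB0 : ∀ r, r ≠ r0 → B r 0 = 0 := by
        intro r hr
        simp only [B, c, if_neg hr, h00]
        ring
      have hBr : ∀ r, IsInt (B r) := by
        intro r
        by_cases hr : r = r0
        · subst hr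
          refine ⟨a r, b r, ?_⟩
          rw [← hab r]
          funext t
          simp [B, c]
        · by_cases h1 : a r = 0 ∧ 0 < b r
          · refine ⟨b r0, b r, ?_⟩
            have h10 : M r 0 = 1 := by
              rw [hab r]
              simp [blk, h1.1, h1.2]
            funext t
            have hle := hmin r h1
            simp only [B, c, if_neg hr, h10]
            rw [hab r, hab r0]
            simp only [blk, h1.1, hr0.1, Nat.zero_le, true_and]
            by_cases h2 : (t : ℕ) < b r0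
            · rw [if_pos h2, if_pos (lt_of_lt_of_le h2 hle), if_neg (by omega)]
              ring
            · rw [if_neg h2]
              by_cases h3 : (t : ℕ) < b r
              · rw [if_pos h3, if_pos ⟨by omega, h3⟩]
                ring
              · rw [if_neg h3, if_neg (by omega)]
                ring
          · have h10 : M r 0 = 0 := by
              rw [hab r, blk_zero, if_neg h1]
            refine ⟨a r, b r, ?_⟩
            rw [← hab r]
            funext t
            simp [B, c, hr, h10]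
      rw [← hdet, Matrix.det_succ_column_zero, Finset.sum_eq_single r0]
      · have hB00 : B r0 0 = 1 := by simp [B, c, h00]
        rw [hB00, mul_one, abs_mul, abs_pow, abs_neg, abs_one, one_pow, one_mul]
        apply ih
        intro i
        obtain ⟨a', b', h'⟩ := hBr (r0.succAbove i)
        refine ⟨a' - 1, b' - 1, ?_⟩
        funext t
        simp only [Matrix.submatrix_apply]
        rw [h']
        simp only [blk, Fin.val_succ]
        congr 1
        apply propext
        omega
      · intro r _ hr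
        rw [hB0 r hr]
        ring
      · intro h
        exact absurd (Finset.mem_univ _) h
    · rw [Matrix.det_eq_zero_of_column_eq_zero 0]
      · simp
      · intro r
        rw [hab r, blk_zero, if_neg (fun h => hne ⟨r, h⟩)]

lemma det_diff {n : ℕ} (s : Finset (Fin n)) : ∀ M : Matrix (Fin n) (Fin n) ℤ,
    (∀ r ∈ s, ∃ u v, IsInt u ∧ IsInt v ∧ M r = u - v) → (∀ r, r ∉ s → IsInt (M r)) →
    |M.det| ≤ 2 ^ s.card := by
  classical
  induction s using Finset.induction_on with
  | empty =>
    intro M _ h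
    simpa using det_interval n M (fun r => h r (by simp))
  | insert a s ha ih =>
    intro M h1 h2
    obtain ⟨u, v, hu, hv, huv⟩ := h1 a (by simp)
    have e : M.det = (M.updateRow a u).det - (M.updateRow a v).det := by
      have h3 : M = M.updateRow a (u + (-1 : ℤ) • v) := by
        have : u + (-1 : ℤ) • v = M a := by rw [huv]; simp [sub_eq_add_neg]
        rw [this, Matrix.updateRow_eq_self]
      conv_lhs => rw [h3]
      rw [Matrix.det_updateRow_add, Matrix.det_updateRow_smul]
      ring
    have hP : ∀ w, IsInt w → |(M.updateRow a w).det| ≤ 2 ^ s.card := by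
      intro w hw
      apply ih
      · intro r hr
        have hra : r ≠ a := fun h => ha (h ▸ hr)
        rw [Matrix.updateRow_ne hra]
        exact h1 r (by simp [hr])
      · intro r hr
        by_cases hra : r = a
        · subst hra
          rw [Matrix.updateRow_self]
          exact hw
        · rw [Matrix.updateRow_ne hra]
          exact h2 r (by simp [hra, hr])
    rw [e, Finset.card_insert_of_notMem ha, pow_succ]
    have h4 := hP u hu
    have h5 := hP v hv
    have h6 := abs_sub (M.updateRow a u).det (M.updateRow a v).det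
    linarith

/-- the main inequality -/
theorem main_aux {m : ℕ} {d : Fin (m + 1) → ℝ} (hpos : ∀ t, 0 < d t)
    (E : Fin m → Fin (m + 1) → ℤ) (hE : ∀ r, IsEqn (E r))
    (hli : LinearIndependent ℝ (fun r t => (E r t : ℝ))) (hs : ∀ r, ∑ t, (E r t : ℝ) * d t = 0)
    (i : Fin (m + 1)) : ∑ j, d j ≤ 2 ^ m * d i := by
  set S := ∑ j, d j with hS
  have hSpos : 0 < S := Finset.sum_pos (fun j _ => hpos j) ⟨i, Finset.mem_univ _⟩
  let N : Matrix (Fin (m + 1)) (Fin (m + 1)) ℤ := Fin.cons (blk 0 (m + 1)) E
  have hN0 : N 0 = blk 0 (m + 1) := rfl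
  have hNs : ∀ r : Fin m, N r.succ = E r := fun r => rfl
  have hdet : |N.det| ≤ 2 ^ m := by
    have := det_diff (Finset.univ.erase (0 : Fin (m + 1))) N ?_ ?_
    · rwa [Finset.card_erase_of_mem (Finset.mem_univ _), Finset.card_univ, Fintype.card_fin,
        Nat.add_sub_cancel] at this
    · intro r hr
      have hr0 : r ≠ 0 := (Finset.mem_erase.1 hr).1
      obtain ⟨r', rfl⟩ := Fin.exists_succ_eq.2 hr0
      obtain ⟨a, b, c, _, _, _, h⟩ := hE r'
      exact ⟨blk a b, blk b c, ⟨a, b, rfl⟩, ⟨b, c, rfl⟩, by rw [hNs, h]; rfl⟩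
    · intro r hr
      have hr0 : r = 0 := by
        by_contra h
        exact hr (Finset.mem_erase.2 ⟨h, Finset.mem_univ _⟩)
      subst hr0
      exact ⟨0, m + 1, hN0⟩
  let R : Matrix (Fin (m + 1)) (Fin (m + 1)) ℝ := N.map (Int.castRingHom ℝ)
  have hR : R = (Int.castRingHom ℝ).mapMatrix N := rfl
  have hR0 : ∀ t, R 0 t = 1 := by
    intro t
    have ht : (t : ℕ) < m + 1 := t.isLt
    simp [R, Matrix.map_apply, hN0, blk, ht]
  have hRs : ∀ (r : Fin m) t, R r.succ t = (E r t : ℝ) := fun r t => rfl
  have hmul : R *ᵥ d = Pi.single 0 S := by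
    funext r
    rcases Fin.eq_zero_or_eq_succ r with rfl | ⟨r', rfl⟩
    · simp [Matrix.mulVec, dotProduct, hR0, hS]
    · simp only [Matrix.mulVec, dotProduct, hRs, hs r']
      rw [Pi.single_eq_of_ne (Fin.succ_ne_zero _)]
  have hrows : LinearIndependent ℝ R.row := by
    have h1 : R.row = Fin.cons (fun _ => (1 : ℝ)) (fun r t => (E r t : ℝ)) := by
      funext r
      rcases Fin.eq_zero_or_eq_succ r with rfl | ⟨r', rfl⟩
      · funext t; exact hR0 t
      · funext t; exact hRs r' t
    rw [h1, linearIndependent_finCons]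
    refine ⟨hli, fun hmem => ?_⟩
    let φ : (Fin (m + 1) → ℝ) →ₗ[ℝ] ℝ :=
      { toFun := fun v => ∑ t, v t * d t
        map_add' := fun x y => by simp [add_mul, Finset.sum_add_distrib]
        map_smul' := fun c x => by simp [mul_assoc, Finset.mul_sum] }
    have hle : Submodule.span ℝ (Set.range (fun (r : Fin m) t => (E r t : ℝ))) ≤ LinearMap.ker φ := by
      rw [Submodule.span_le]
      rintro _ ⟨r, rfl⟩
      exact hs r
    have h2 : φ (fun _ => 1) = 0 := hle hmem
    have h3 : φ (fun _ => 1) = S := by simp [φ, hS]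
    rw [h3] at h2
    exact hSpos.ne' h2
  have hRdet : R.det ≠ 0 := by
    have := Matrix.linearIndependent_rows_iff_isUnit.1 hrows
    exact ((Matrix.isUnit_iff_isUnit_det R).1 this).ne_zero
  have hadj : R.det * d i = S * ((N.adjugate i 0 : ℤ) : ℝ) := by
    have h1 : R.adjugate *ᵥ (R *ᵥ d) = R.det • d := by
      rw [Matrix.mulVec_mulVec, Matrix.adjugate_mul, Matrix.smul_mulVec, Matrix.one_mulVec]
    have h2 := congrFun h1 i
    rw [hmul] at h2
    have h3 : R.adjugate i 0 = ((N.adjugate i 0 : ℤ) : ℝ) := by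
      rw [hR, ← RingHom.map_adjugate]
      rfl
    simp only [Matrix.mulVec, Pi.smul_apply, smul_eq_mul, dotProduct_single] at h2
    rw [← h2, h3]
    ring
  have hRN : R.det = ((N.det : ℤ) : ℝ) := by
    rw [hR, ← RingHom.map_det]
    rfl
  have hz : N.adjugate i 0 ≠ 0 := by
    intro h
    rw [h] at hadj
    simp only [Int.cast_zero, mul_zero] at hadj
    exact (mul_ne_zero hRdet (hpos i).ne') hadj
  have hz1 : (1 : ℝ) ≤ |((N.adjugate i 0 : ℤ) : ℝ)| := by
    exact_mod_cast Int.one_le_abs hz
  have hdet' : |R.det| ≤ 2 ^ m := by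
    rw [hRN]
    exact_mod_cast hdet
  have h5 : |R.det| * d i = S * |((N.adjugate i 0 : ℤ) : ℝ)| := by
    have := congrArg abs hadj
    rwa [abs_mul, abs_mul, abs_of_pos (hpos i), abs_of_pos hSpos] at this
  have h6 : |R.det| * d i ≤ 2 ^ m * d i := mul_le_mul_of_nonneg_right hdet' (hpos i).le
  nlinarith

theorem main_ineq {n : ℕ} {d : Fin n → ℝ} (hd : IsTypeA d) (i : Fin n) :
    ∑ j, d j ≤ 2 ^ (n - 1) * d i := by
  rcases n with _ | m
  · exact i.elim0
  obtain ⟨hpos, E, hE, hli, hs⟩ := hd
  exact main_aux (m := m) hpos E hE hli hs i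

/-- the extremal sequence `(1, 1, 2, 4, …)` -/
def ext (n : ℕ) : Fin n → ℤ := fun t => if (t : ℕ) = 0 then 1 else 2 ^ ((t : ℕ) - 1)

lemma sum_ext (n : ℕ) : ∑ t ∈ Finset.range (n + 1), (if t = 0 then (1 : ℤ) else 2 ^ (t - 1))
    = 2 ^ n := by
  induction n with
  | zero => simp
  | succ n ih =>
    rw [Finset.sum_range_succ, ih, if_neg (by omega), Nat.add_sub_cancel]
    ring

theorem ext_mem (m : ℕ) : ext (m + 1) ∈ AA (m + 1) := by
  refine ⟨⟨?_, fun r => eqn 0 ((r : ℕ) + 1) ((r : ℕ) + 2), ?_, ?_, ?_⟩, ?_⟩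
  · intro t
    simp only [ext]
    split_ifs
    · norm_num
    · push_cast; positivity
  · intro r
    have hr : (r : ℕ) < m := by have := r.isLt; omega
    exact ⟨0, (r : ℕ) + 1, (r : ℕ) + 2, by omega, by omega, by omega, rfl⟩
  · -- linear independence via the triangular submatrix
    let P : (Fin (m + 1) → ℝ) →ₗ[ℝ] (Fin m → ℝ) := LinearMap.funLeft ℝ ℝ Fin.succ
    apply LinearIndependent.of_comp P
    let T : Matrix (Fin m) (Fin m) ℝ := fun r c =>
      ((eqn 0 ((r : ℕ) + 1) ((r : ℕ) + 2) : Fin (m + 1) → ℤ) c.succ : ℝ)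
    have hT : T.det ≠ 0 := by
      rw [Matrix.det_of_isLowerTriangular T]
      · apply Finset.prod_ne_zero_iff.2
        intro r _
        simp [T, eqn, blk]
      · intro r c hrc
        have hrc' : (r : ℕ) < c := hrc
        simp only [T, eqn, Pi.sub_apply, blk, Fin.val_succ]
        rw [if_neg (by omega), if_neg (by omega)]
        simp
    have h1 : LinearIndependent ℝ T.row :=
      Matrix.linearIndependent_rows_iff_isUnit.2
        ((Matrix.isUnit_iff_isUnit_det T).2 (isUnit_iff_ne_zero.2 hT))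
    exact h1
  · intro r
    have hr : (r : ℕ) < m := by have := r.isLt; omega
    have key : ∑ t : Fin (m + 1), (eqn 0 ((r : ℕ) + 1) ((r : ℕ) + 2) : Fin (m + 1) → ℤ) t
        * ext (m + 1) t = 0 := by
      let F : ℕ → ℤ := fun t => ((if t < (r : ℕ) + 1 then (1 : ℤ) else 0)
              - (if t = (r : ℕ) + 1 then 1 else 0)) * (if t = 0 then (1 : ℤ) else 2 ^ (t - 1))
      have e1 : ∀ t : Fin (m + 1),
          (eqn 0 ((r : ℕ) + 1) ((r : ℕ) + 2) : Fin (m + 1) → ℤ) t * ext (m + 1) t = F t := by
        intro t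
        simp only [eqn, Pi.sub_apply, blk, ext, Nat.zero_le, true_and, F]
        congr 3
        apply propext
        omega
      rw [Finset.sum_congr rfl (fun t _ => e1 t), Fin.sum_univ_eq_sum_range F (m + 1)]
      simp only [F, sub_mul, Finset.sum_sub_distrib, ite_mul, one_mul, zero_mul]
      rw [← Finset.sum_filter, ← Finset.sum_filter]
      have f1 : (Finset.range (m + 1)).filter (fun t => t < (r : ℕ) + 1)
          = Finset.range ((r : ℕ) + 1) := by
        ext x; simp only [Finset.mem_filter, Finset.mem_range]; omega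
      have f2 : (Finset.range (m + 1)).filter (fun t => t = (r : ℕ) + 1) = {(r : ℕ) + 1} := by
        ext x; simp only [Finset.mem_filter, Finset.mem_range, Finset.mem_singleton]; omega
      rw [f1, f2, sum_ext, Finset.sum_singleton, if_neg (by omega)]
      exact sub_self _
    have := congrArg (fun z : ℤ => (z : ℝ)) key
    push_cast at this
    exact this
  · have h1 : Finset.univ.gcd (ext (m + 1)) ∣ ext (m + 1) 0 := Finset.gcd_dvd (Finset.mem_univ _)
    have h2 : ext (m + 1) 0 = 1 := by simp [ext]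
    rw [h2] at h1
    have h3 : normalize (Finset.univ.gcd (ext (m + 1))) = Finset.univ.gcd (ext (m + 1)) :=
      Finset.normalize_gcd
    rw [← h3]
    exact normalize_eq_one.2 (isUnit_of_dvd_one h1)

lemma sum_ext_fin (m : ℕ) : ∑ t, ext (m + 1) t = 2 ^ m := by
  rw [← sum_ext m, ← Fin.sum_univ_eq_sum_range]
  rfl

/-- Q1 -/
theorem isLeast_main (n : ℕ) (hn : 1 ≤ n) :
    IsLeast {x : ℝ | ∃ d ∈ AA n, ∃ i, (∀ j, d i ≤ d j) ∧ x = (d i : ℝ) / ∑ j, (d j : ℝ)}
      (1 / 2 ^ (n - 1)) := by
  obtain ⟨m, rfl⟩ : ∃ m, n = m + 1 := ⟨n - 1, by omega⟩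
  rw [Nat.add_sub_cancel]
  constructor
  · refine ⟨ext (m + 1), ext_mem m, 0, ?_, ?_⟩
    · intro j
      have h2 : ext (m + 1) 0 = 1 := by simp [ext]
      rw [h2]
      simp only [ext]
      split_ifs
      · exact le_rfl
      · exact one_le_pow₀ (by norm_num)
    · have h2 : ext (m + 1) 0 = 1 := by simp [ext]
      have h3 : ∑ t, ((ext (m + 1) t : ℤ) : ℝ) = 2 ^ m := by
        have := congrArg (fun z : ℤ => (z : ℝ)) (sum_ext_fin m)
        push_cast at this
        exact this
      rw [h2, h3]
      norm_num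
  · rintro x ⟨d, ⟨hd, _⟩, i, _, rfl⟩
    have h1 := main_ineq hd i
    rw [Nat.add_sub_cancel] at h1
    have hpos : 0 < ∑ j, (d j : ℝ) := Finset.sum_pos (fun j _ => hd.1 j) ⟨i, Finset.mem_univ _⟩
    rw [div_le_div_iff₀ (by positivity) hpos]
    linarith

end Pool.Agent.R804.TypeA
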